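import Pool.Agent.H.MP_7f9305_lc.A

set_option autoImplicit false

namespace Pool.Agent.Results.MP_7f9305_lc.NotET0L

open Pool.Agent.H.MP_7f9305_lc Relation

/-- Rules of the example; nonterminal `true` is S and `false` is U. -/
def rules : Finset ((Bool ⊕ Bool) × List (Bool ⊕ Bool) × Finset Bool) :=
  {(.inr true, [.inr true, .inr false], ∅), (.inr true, [.inr false], ∅),
    (.inr false, [.inr false, .inl false], ∅), (.inr false, [.inl true, .inl false], {true, false}),
    (.inl true, [.inl true, .inl false], ∅), (.inl false, [.inl false], ∅)}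

/-- The rule test. -/
def ok (pre : List (Bool ⊕ Bool)) (X : Bool ⊕ Bool) (y : List (Bool ⊕ Bool)) : Prop :=
  ∃ W, (X, y, W) ∈ rules ∧ ∀ Z ∈ W, Sum.inr Z ∉ pre

theorem ok_iff (pre X y) : ok pre X y ↔
    (X = .inr true ∧ y = [.inr true, .inr false]) ∨ (X = .inr true ∧ y = [.inr false]) ∨
    (X = .inr false ∧ y = [.inr false, .inl false]) ∨
    (X = .inr false ∧ y = [.inl true, .inl false] ∧ .inr false ∉ pre ∧ .inr true ∉ pre) ∨
    (X = .inl true ∧ y = [.inl true, .inl false]) ∨ (X = .inl false ∧ y = [.inl false]) := by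
  simp [ok, rules, or_and_right, exists_or, and_assoc]

theorem body {pre u v : List (Bool ⊕ Bool)} (h : Par ok pre u v) (hu : .inr true ∉ u) :
    GR u v ∧ .inr true ∉ v ∧ v.count (.inl true) ≤ u.count (.inl true) + 1 ∧
      ((.inr true ∈ pre ∨ .inr false ∈ pre) → v.count (.inl true) ≤ u.count (.inl true)) := by
  induction h with
  | nil => exact ⟨GR.nil, by simp⟩
  | cons h1 _ ih =>
    obtain ⟨a1, a2, a3, a4⟩ := ih (fun h => hu (by simp [h]))
    rcases (ok_iff _ _ _).1 h1 with ⟨rfl, rfl⟩ | ⟨rfl, rfl⟩ | ⟨rfl, rfl⟩ | ⟨rfl, rfl, b1, b2⟩ |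
      ⟨rfl, rfl⟩ | ⟨rfl, rfl⟩
    · simp at hu
    · simp at hu
    · exact ⟨GR.blk _ _ (by simp) a1, by simpa using a2, by simpa using a3,
        fun _ => by simpa using a4⟩
    · exact ⟨GR.blk _ _ (by simp) a1, by simpa using a2, by simpa using a4, by simp [b1, b2]⟩
    · exact ⟨GR.blk _ _ (by simp) a1, by simpa using a2, by simpa using a3, by simpa using a4⟩
    · exact ⟨GR.b a1, by simpa using a2, by simpa using a3, by simpa using a4⟩

/-- The invariant of the example. -/
def Inv (x : List (Bool ⊕ Bool)) : Prop :=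
  (∃ x', x = .inr true :: x' ∧ .inr true ∉ x' ∧ x'.count (.inl true) = 0) ∨
    (.inr true ∉ x ∧ GB (x.count (.inl true)) x)

theorem inv_step {u v : List (Bool ⊕ Bool)} (h : Par ok [] u v) (hu : Inv u) : Inv v := by
  rcases hu with ⟨x, rfl, h1, h2⟩ | ⟨h1, h2⟩
  · cases h with
    | @cons _ _ y _ v h3 h4 =>
      obtain ⟨-, a2, -, a4⟩ := body h4 h1
      have a5 : v.count (.inl true) = 0 := by have := a4 (by simp); omega
      rcases (ok_iff _ _ _).1 h3 with ⟨-, rfl⟩ | ⟨-, rfl⟩ | h | h | h | h
      · exact Or.inl ⟨_, rfl, by simpa using a2, by simpa using a5⟩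
      · refine Or.inr ⟨by simpa using a2, ?_⟩
        rw [show List.count (Sum.inl true) ([Sum.inr false] ++ v) = 0 by simpa using a5]
        exact GB.zero _
      all_goals simp at h
  · obtain ⟨a1, a2, a3, -⟩ := body h h1
    exact Or.inr ⟨a2, (a1.gb h2).mono a3⟩

/-- Idle growth. -/
def gr (u : List (Bool ⊕ Bool)) : List (Bool ⊕ Bool) :=
  u.flatMap (fun X => if X = .inl false then [X] else [X, .inl false])

theorem par_gr (u : List (Bool ⊕ Bool)) (hu : .inr true ∉ u) : ∀ pre, Par ok pre u (gr u) := by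
  induction u with
  | nil => exact Par.nil
  | cons X u ih =>
    intro pre
    refine Par.cons ((ok_iff _ _ _).2 ?_) (ih (fun h => hu (by simp [h])) _)
    rcases X with (_ | _) | (_ | _) <;> simp at hu ⊢

theorem count_gr (u : List (Bool ⊕ Bool)) (X : Bool ⊕ Bool) (hX : X ≠ .inl false) :
    (gr u).count X = u.count X := by
  induction u with
  | nil => rfl
  | cons Y u ih =>
    simp only [gr, List.flatMap_cons, List.count_append] at ih ⊢
    rw [ih]
    split_ifs with h <;> simp [List.count_cons, Ne.symm hX, add_comm]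

theorem phase1 (n : ℕ) : ∃ x, ReflTransGen (fun u v => u ≠ [] ∧ Par ok [] u v) [.inr true]
    (.inr true :: x) ∧ x.count (.inr true) = 0 ∧ x.count (.inr false) = n := by
  induction n with
  | zero => exact ⟨[], ReflTransGen.refl, rfl, rfl⟩
  | succ n ih =>
    obtain ⟨x, h1, h2, h3⟩ := ih
    exact ⟨.inr false :: gr x, h1.tail ⟨by simp, Par.cons (y := [_, _]) ((ok_iff _ _ _).2 (by simp))
      (par_gr x (List.count_eq_zero.1 h2) _)⟩, by simp [count_gr, h2], by simp [count_gr, h3]⟩

theorem phase2 (n : ℕ) : ∀ x : List (Bool ⊕ Bool), x.count (.inr true) = 0 →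
    x.count (.inr false) = n → ∃ z : List Bool,
      ReflTransGen (fun u v => u ≠ [] ∧ Par ok [] u v) x (z.map .inl) ∧
        z.count true = x.count (.inl true) + n := by
  induction n with
  | zero =>
    intro x h1 h2
    have : ∃ z : List Bool, x = z.map .inl := by
      refine ⟨x.map (Sum.elim id id), ?_⟩
      rw [List.map_map]
      refine (List.map_id' x).symm.trans (List.map_congr_left (fun X hX => ?_))
      rcases X with _ | (_ | _)
      · rfl
      · exact absurd hX (List.count_eq_zero.1 h2)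
      · exact absurd hX (List.count_eq_zero.1 h1)
    obtain ⟨z, rfl⟩ := this
    exact ⟨z, ReflTransGen.refl, by simp [List.count_map_of_injective _ _ Sum.inl_injective]⟩
  | succ n ih =>
    intro x h1 h2
    obtain ⟨p, q, rfl, hp⟩ := List.eq_append_cons_of_mem
      (List.count_pos_iff.1 (show 0 < x.count (.inr false) by omega))
    have h3 := List.count_eq_zero.2 hp
    simp only [List.count_append, List.count_cons] at h1 h2
    simp at h1 h2
    obtain ⟨z, a1, a2⟩ := ih (gr p ++ ([.inl true, .inl false] ++ gr q))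
      (by simp [count_gr, h1]) (by simp [count_gr]; omega)
    refine ⟨z, ReflTransGen.head ⟨by simp, (par_gr p (List.count_eq_zero.1 h1.1) _).append
      (Par.cons ((ok_iff _ _ _).2 (by simp [hp, List.count_eq_zero.1 h1.1]))
        (par_gr q (List.count_eq_zero.1 h1.2) _))⟩ a1, ?_⟩
    simp [count_gr] at a2 ⊢
    omega

theorem result : ∃ L : Set (List Bool), IsLF L ∧ ¬ IsET0L L := by
  refine ⟨_, ⟨Bool, inferInstance, rules, [.inr true], by simp, rfl⟩, fun h => ?_⟩
  obtain ⟨B, hB⟩ := exchange h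
  obtain ⟨x, h1, h2, h3⟩ := phase1 B
  obtain ⟨z, h4, h5⟩ := phase2 (B + 1) (.inr false :: gr x) (by simp [count_gr, h2])
    (by simp [count_gr, h3])
  obtain ⟨y, a1, a2, a3⟩ := (hB z ((h1.tail ⟨by simp, Par.cons (y := [_])
    ((ok_iff _ _ _).2 (by simp)) (par_gr x (List.count_eq_zero.1 h2) _)⟩).trans h4) (by omega)).1
  have key : ∀ v, ReflTransGen (fun u v => u ≠ [] ∧ Par ok [] u v) [.inr true] v → Inv v := by
    intro v hv
    induction hv with
    | refl => exact Or.inl ⟨[], rfl, by simp, rfl⟩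
    | tail _ h ih => exact inv_step h.2 ih
  rcases key _ a1 with ⟨x', b1, -⟩ | ⟨-, b1⟩
  · cases y <;> simp at b1
  · rw [List.count_map_of_injective _ _ Sum.inl_injective] at b1
    exact a3 (b1.mono (by omega)).gap

end Pool.Agent.Results.MP_7f9305_lc.NotET0L
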